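import Pool.Agent.W54.TCF.Fin
import Pool.Agent.H345R2.CT.D

/-!
# Zeros of Hardy's function of high multiplicity

Assuming the Riemann hypothesis, the real zeros of `Z` in `(0, T]` of multiplicity at least `j`
number (with multiplicity) at most `C N(T) exp (-c j log j)`, uniformly in `j ≥ 1` and in `T`, and
the sum over the zeros of `m ^ (c m)`, `m` the multiplicity, is `O(N(T))`.

The bound is trivial for bounded `j`, it shows that multiple zeros of multiplicity `j` are
super-exponentially rare, and for the largest possible `j` it contains the bound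
`O(log T / log log T)` for all multiplicities.  It rests on the bound for dense clusters of zeros
proved in the starting files `Pool/Agent/H345R2/CT` (explicit formula with a window whose bandwidth
is inversely proportional to the number of zeros of the cluster, and high moments of the prime sum).
-/

open Filter Topology Complex

namespace Pool.Agent.Results.MP_6bc78b_nt.HighMultiplicity

/-- the phase `exp (i ϑ(t))`, with `ϑ(t) = arg Γ(1/4 + i t / 2) - (t / 2) log π` -/
noncomputable def phase (t : ℝ) : ℂ :=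
  Gamma (1 / 4 + I * t / 2) / ‖Gamma (1 / 4 + I * t / 2)‖ * cexp (-(I * (t / 2) * Real.log Real.pi))

/-- Hardy's function `Z(t) = exp (i ϑ(t)) ζ(1/2 + i t)` -/
noncomputable def Z (t : ℝ) : ℂ := phase t * riemannZeta (1 / 2 + I * t)

/-- the multiplicity of a real zero `t` of `Z`: the least `m ≥ 1` such that the `m`-th derivative of
`Z` at `t` is not zero -/
noncomputable def mlt (t : ℝ) : ℕ := sInf {m : ℕ | 1 ≤ m ∧ iteratedDeriv m Z t ≠ 0}

/-- the zeros of `Z` in `(0, T]` -/
def ZZ (T : ℝ) : Set ℝ := {t : ℝ | 0 < t ∧ t ≤ T ∧ Z t = 0}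

/-- the nontrivial zeros of zeta with ordinate in `(0, T]` -/
def zeros (T : ℝ) : Set ℂ :=
  {s : ℂ | riemannZeta s = 0 ∧ 0 < s.re ∧ s.re < 1 ∧ 0 < s.im ∧ s.im ≤ T}

/-- the number of nontrivial zeros with ordinate in `(0, T]`, counted with multiplicity -/
noncomputable def N (T : ℝ) : ℕ := ∑ᶠ s ∈ zeros T, analyticOrderNatAt riemannZeta s

/-- the zeros with multiplicity at least `j` -/
theorem tail (hRH : RiemannHypothesis) : ∃ c : ℝ, 0 < c ∧ ∃ C : ℝ, 1 ≤ C ∧ ∀ (T : ℝ) (j : ℕ), 1 ≤ j →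
    ∀ A : Finset ℝ, (∀ t ∈ A, t ∈ ZZ T ∧ j ≤ mlt t) →
      ∑ t ∈ A, (mlt t : ℝ) ≤ C * (N T : ℝ) * Real.exp (-c * (j * Real.log j)) := by
  classical
  have hRHs : SP.RHs := by
    intro s h1 h2 h0
    apply hRH s h0
    · rintro ⟨k, hk⟩
      have := congrArg Complex.re hk
      simp at this
      have hk0 : (0 : ℝ) ≤ k := Nat.cast_nonneg k
      linarith
    · intro h; rw [h] at h2; simp at h2
  obtain ⟨c, hc, m0, hm0, H⟩ := LG.CU.mult_tail hRHs
  refine ⟨c, hc, Real.exp (c * (m0 * Real.log m0)), ?_, fun T j hj A hA => ?_⟩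
  · apply Real.one_le_exp
    have : 0 ≤ Real.log (m0 : ℝ) := Real.log_natCast_nonneg m0
    positivity
  have hmu : ∀ t ∈ A, mlt t = SG.zmult (1 / 2 + I * t) := by
    intro t ht
    have h1 : t ∈ Pool.Agent.W54.TCF.ZZ T := (hA t ht).1
    have h2 := Pool.Agent.W54.TCF.mlt_eq_mu h1
    rw [Pool.Agent.W54.TCF.mu_eq] at h2
    exact h2
  have hzero : ∀ t ∈ A, 0 < t ∧ t ≤ T ∧ riemannZeta (1 / 2 + I * t) = 0 := by
    intro t ht
    obtain ⟨a1, a2, a3⟩ := (hA t ht).1
    exact ⟨a1, a2, (Pool.Agent.W54.TCF.Z_zero_iff t).mp a3⟩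
  have hsum : ∑ t ∈ A, (mlt t : ℝ) = ((∑ t ∈ A, SG.zmult (1 / 2 + I * t) : ℕ) : ℝ) := by
    push_cast
    exact Finset.sum_congr rfl fun t ht => by rw [hmu t ht]
  have hN0 : (0 : ℝ) ≤ N T := Nat.cast_nonneg _
  have hlog0 : 0 ≤ Real.log (m0 : ℝ) := Real.log_natCast_nonneg m0
  by_cases hjm : m0 ≤ j
  · have h1 := H T j hjm A (fun t ht => ⟨(hzero t ht).1, (hzero t ht).2.1, (hzero t ht).2.2, by
      rw [← hmu t ht]; exact (hA t ht).2⟩)
    rw [hsum]
    refine h1.trans ?_
    have h2 : (1 : ℝ) ≤ Real.exp (c * (m0 * Real.log m0)) := by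
      apply Real.one_le_exp
      positivity
    have h3 : -c * j * Real.log j = -c * (j * Real.log j) := by ring
    rw [h3]
    have h4 : (SG.NZ T : ℝ) = N T := rfl
    rw [h4]
    have h5 := (Real.exp_pos (-c * (j * Real.log j))).le
    nlinarith [mul_nonneg hN0 h5]
  · push Not at hjm
    -- the trivial bound
    have h1 : ∑ t ∈ A, (mlt t : ℝ) ≤ N T := by
      rw [hsum]
      have h2 : ∑ t ∈ A, SG.zmult (1 / 2 + I * t) ≤ SG.NZ T := by
        by_cases hT : 0 < T
        · have h3 := SG.NZ_add_le 0 T hT.le (A.image (fun t : ℝ => (1 / 2 + I * t : ℂ))) (by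
            intro s hs
            rw [Finset.mem_image] at hs
            obtain ⟨t, ht, rfl⟩ := hs
            obtain ⟨a1, a2, a3⟩ := hzero t ht
            refine ⟨⟨a3, by simp, by simp; norm_num, by simpa using a1, by simpa using a2⟩,
              by simpa using a1⟩)
          rw [Finset.sum_image (by
            intro a _ b _ hab
            have := congrArg Complex.im hab
            simpa using this)] at h3
          omega
        · have : A = ∅ := by
            rw [Finset.eq_empty_iff_forall_notMem]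
            intro t ht
            obtain ⟨a1, a2, _⟩ := hzero t ht
            linarith
          rw [this]; simp
      exact_mod_cast h2
    refine h1.trans ?_
    have hjle : (j : ℝ) * Real.log j ≤ m0 * Real.log m0 := by
      have e1 : (j : ℝ) ≤ m0 := by exact_mod_cast hjm.le
      have e2 : (0 : ℝ) < j := by exact_mod_cast hj
      have e3 : Real.log j ≤ Real.log m0 := Real.log_le_log e2 e1
      have e4 : 0 ≤ Real.log (j : ℝ) := Real.log_natCast_nonneg j
      exact mul_le_mul e1 e3 e4 (by positivity)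
    have h6 : (1 : ℝ) ≤ Real.exp (c * (m0 * Real.log m0)) * Real.exp (-c * (j * Real.log j)) := by
      rw [← Real.exp_add]
      apply Real.one_le_exp
      nlinarith [mul_le_mul_of_nonneg_left hjle hc.le]
    calc (N T : ℝ) = 1 * N T := (one_mul _).symm
      _ ≤ (Real.exp (c * (m0 * Real.log m0)) * Real.exp (-c * (j * Real.log j))) * N T :=
        mul_le_mul_of_nonneg_right h6 hN0
      _ = _ := by ring

/-- `∑_{1 ≤ j ≤ M} exp (-a j log j)` is bounded -/
theorem sum_bound (a : ℝ) (ha : 0 < a) : ∃ K : ℝ, 0 ≤ K ∧ ∀ M : ℕ,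
    ∑ j ∈ Finset.Icc 1 M, Real.exp (-a * (j * Real.log j)) ≤ K := by
  obtain ⟨j0, hj0⟩ := exists_nat_gt (Real.exp (Real.log 2 / a))
  have hj0pos : (0 : ℝ) < j0 := (Real.exp_pos _).trans hj0
  have hlog : Real.log 2 / a ≤ Real.log j0 := by
    rw [Real.le_log_iff_exp_le hj0pos]; exact hj0.le
  have hlog2 : Real.log 2 ≤ a * Real.log j0 := by
    rw [div_le_iff₀ ha] at hlog; linarith
  have hl2 : 0 < Real.log 2 := Real.log_pos (by norm_num)
  refine ⟨2 ^ j0, by positivity, fun M => ?_⟩
  have hterm : ∀ j ∈ Finset.Icc 1 M, Real.exp (-a * (j * Real.log j)) ≤ 2 ^ j0 * (1 / 2 : ℝ) ^ j := by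
    intro j hj
    rw [Finset.mem_Icc] at hj
    have hj1 : (1 : ℝ) ≤ j := by exact_mod_cast hj.1
    have hjl : 0 ≤ Real.log (j : ℝ) := Real.log_natCast_nonneg j
    have hexp : (2 : ℝ) ^ j0 * (1 / 2 : ℝ) ^ j = Real.exp (Real.log 2 * (j0 - j)) := by
      rw [mul_sub, Real.exp_sub, mul_comm (Real.log 2), mul_comm (Real.log 2), Real.exp_nat_mul,
        Real.exp_nat_mul, Real.exp_log (by norm_num : (0 : ℝ) < 2), one_div, inv_pow]
      rfl
    rw [hexp]
    apply Real.exp_le_exp.mpr
    by_cases hjj : j0 ≤ j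
    · have e1 : Real.log j0 ≤ Real.log j := Real.log_le_log hj0pos (by exact_mod_cast hjj)
      have e2 : Real.log 2 ≤ a * Real.log j := hlog2.trans (mul_le_mul_of_nonneg_left e1 ha.le)
      have e3 : (j : ℝ) * Real.log 2 ≤ j * (a * Real.log j) :=
        mul_le_mul_of_nonneg_left e2 (by linarith)
      nlinarith
    · push Not at hjj
      have e1 : (j : ℝ) ≤ j0 := by exact_mod_cast hjj.le
      have e2 : 0 ≤ Real.log 2 * (j0 - j) := mul_nonneg hl2.le (by linarith)
      have e3 : 0 ≤ a * (j * Real.log j) := by positivity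
      linarith
  calc ∑ j ∈ Finset.Icc 1 M, Real.exp (-a * (j * Real.log j))
      ≤ ∑ j ∈ Finset.Icc 1 M, 2 ^ j0 * (1 / 2 : ℝ) ^ j := Finset.sum_le_sum hterm
    _ = 2 ^ j0 * ∑ j ∈ Finset.Icc 1 M, (1 / 2 : ℝ) ^ j := by rw [Finset.mul_sum]
    _ ≤ 2 ^ j0 * 1 := by
      apply mul_le_mul_of_nonneg_left _ (by positivity)
      have geo : ∀ n : ℕ, ∑ j ∈ Finset.Icc 1 n, (1 / 2 : ℝ) ^ j = 1 - (1 / 2) ^ n := by
        intro n
        induction n with
        | zero => simp
        | succ n ih =>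
          rw [Finset.sum_Icc_succ_top (by omega), ih, pow_succ]
          ring
      rw [geo]
      have : (0 : ℝ) ≤ (1 / 2) ^ M := by positivity
      linarith
    _ = 2 ^ j0 := mul_one _

/-- **Theorem.** Assume the Riemann hypothesis.  There are `c > 0` and `C` such that for all real
`T`:
* for every `j ≥ 1` the real zeros of `Z` in `(0, T]` with multiplicity at least `j`, counted with
  multiplicity, number at most `C N(T) exp (-c j log j)`;
* the sum over the distinct real zeros of `Z` in `(0, T]` of `m · m ^ (c m)`, where `m` is the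
  multiplicity of the zero, is at most `C N(T)`. -/
theorem result (hRH : RiemannHypothesis) : ∃ c C : ℝ, 0 < c ∧ ∀ T : ℝ, (ZZ T).Finite ∧
    (∀ j : ℕ, 1 ≤ j → ∑ᶠ t ∈ {t : ℝ | t ∈ ZZ T ∧ j ≤ mlt t}, (mlt t : ℝ) ≤
      C * (N T : ℝ) * Real.exp (-c * (j * Real.log j))) ∧
    ∑ᶠ t ∈ ZZ T, (mlt t : ℝ) * (mlt t : ℝ) ^ (c * (mlt t : ℝ)) ≤ C * (N T : ℝ) := by
  classical
  obtain ⟨c, hc, C, hC, H⟩ := tail hRH
  obtain ⟨K, hK, hKb⟩ := sum_bound (c / 2) (by positivity)
  have hfin : ∀ T : ℝ, (ZZ T).Finite := fun T => Pool.Agent.W54.TCF.ZZ_finite hRH T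
  refine ⟨c / 2, C * (1 + K), by positivity, fun T => ⟨hfin T, fun j hj => ?_, ?_⟩⟩
  · have hs : {t : ℝ | t ∈ ZZ T ∧ j ≤ mlt t}.Finite := (hfin T).subset fun t ht => ht.1
    rw [finsum_mem_eq_finite_toFinset_sum _ hs]
    refine (H T j hj hs.toFinset (fun t ht => by simpa using ht)).trans ?_
    have hN0 : (0 : ℝ) ≤ N T := Nat.cast_nonneg _
    have hl : 0 ≤ (j : ℝ) * Real.log j := by
      have := Real.log_natCast_nonneg j
      positivity
    have e1 : Real.exp (-c * (j * Real.log j)) ≤ Real.exp (-(c / 2) * (j * Real.log j)) := by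
      apply Real.exp_le_exp.mpr
      nlinarith
    calc C * (N T : ℝ) * Real.exp (-c * (j * Real.log j))
        ≤ C * (N T : ℝ) * Real.exp (-(c / 2) * (j * Real.log j)) :=
          mul_le_mul_of_nonneg_left e1 (by positivity)
      _ ≤ C * (1 + K) * (N T : ℝ) * Real.exp (-(c / 2) * (j * Real.log j)) := by
          apply mul_le_mul_of_nonneg_right _ (Real.exp_pos _).le
          apply mul_le_mul_of_nonneg_right _ hN0
          nlinarith
  · have hN0 : (0 : ℝ) ≤ N T := Nat.cast_nonneg _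
    rw [finsum_mem_eq_finite_toFinset_sum _ (hfin T)]
    set Z0 := (hfin T).toFinset with hZ0
    have hmem : ∀ t ∈ Z0, t ∈ ZZ T := fun t ht => by simpa [hZ0] using ht
    set M := Z0.sup mlt with hM
    set f : ℕ → ℝ := fun j => Real.exp (c / 2 * (j * Real.log j)) with hf
    have hpos : ∀ t ∈ Z0, 1 ≤ mlt t := by
      intro t ht
      have h1 : t ∈ Pool.Agent.W54.TCF.ZZ T := hmem t ht
      have h2 : mlt t = TC.mu t := Pool.Agent.W54.TCF.mlt_eq_mu h1
      rw [h2]
      exact Pool.Agent.W54.TCF.mu_pos h1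
    have hpow : ∀ t ∈ Z0, (mlt t : ℝ) ^ (c / 2 * (mlt t : ℝ)) = f (mlt t) := by
      intro t ht
      have h1 : (0 : ℝ) < mlt t := by exact_mod_cast hpos t ht
      rw [hf, Real.rpow_def_of_pos h1]
      congr 1
      ring
    have hle : ∀ t ∈ Z0, (mlt t : ℝ) * (mlt t : ℝ) ^ (c / 2 * (mlt t : ℝ)) ≤
        ∑ j ∈ Finset.Icc 1 M, if j ≤ mlt t then f j * (mlt t : ℝ) else 0 := by
      intro t ht
      rw [hpow t ht]
      have h1 : mlt t ∈ Finset.Icc 1 M := Finset.mem_Icc.mpr ⟨hpos t ht, Finset.le_sup ht⟩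
      have h2 := Finset.single_le_sum (f := fun j => if j ≤ mlt t then f j * (mlt t : ℝ) else 0)
        (fun j _ => by
          split_ifs
          · have := (Real.exp_pos (c / 2 * (j * Real.log j))).le
            positivity
          · exact le_rfl) h1
      simp only [le_refl, if_true] at h2
      linarith
    calc ∑ t ∈ Z0, (mlt t : ℝ) * (mlt t : ℝ) ^ (c / 2 * (mlt t : ℝ))
        ≤ ∑ t ∈ Z0, ∑ j ∈ Finset.Icc 1 M, (if j ≤ mlt t then f j * (mlt t : ℝ) else 0) :=
          Finset.sum_le_sum hle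
      _ = ∑ j ∈ Finset.Icc 1 M, f j * ∑ t ∈ Z0.filter (fun t => j ≤ mlt t), (mlt t : ℝ) := by
          rw [Finset.sum_comm]
          refine Finset.sum_congr rfl fun j _ => ?_
          rw [Finset.mul_sum, Finset.sum_filter]
      _ ≤ ∑ j ∈ Finset.Icc 1 M, C * (N T : ℝ) * Real.exp (-(c / 2) * (j * Real.log j)) := by
          refine Finset.sum_le_sum fun j hj => ?_
          have h1 := H T j (Finset.mem_Icc.mp hj).1 (Z0.filter (fun t => j ≤ mlt t)) (fun t ht => by
            rw [Finset.mem_filter] at ht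
            exact ⟨hmem t ht.1, ht.2⟩)
          calc f j * ∑ t ∈ Z0.filter (fun t => j ≤ mlt t), (mlt t : ℝ)
              ≤ f j * (C * (N T : ℝ) * Real.exp (-c * (j * Real.log j))) :=
                mul_le_mul_of_nonneg_left h1 (Real.exp_pos _).le
            _ = C * (N T : ℝ) * (Real.exp (c / 2 * (j * Real.log j)) *
                Real.exp (-c * (j * Real.log j))) := by rw [hf]; ring
            _ = C * (N T : ℝ) * Real.exp (-(c / 2) * (j * Real.log j)) := by
                rw [← Real.exp_add]; congr 2; ring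
      _ = C * (N T : ℝ) * ∑ j ∈ Finset.Icc 1 M, Real.exp (-(c / 2) * (j * Real.log j)) := by
          rw [Finset.mul_sum]
      _ ≤ C * (N T : ℝ) * K := mul_le_mul_of_nonneg_left (hKb M) (by positivity)
      _ ≤ C * (1 + K) * (N T : ℝ) := by
          have : 0 ≤ C * (N T : ℝ) := by positivity
          nlinarith

end Pool.Agent.Results.MP_6bc78b_nt.HighMultiplicity
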