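import Pool.Agent.TH809.MZ.Fin
import Pool.Agent.W54.TCF.ZMult

/-!
# The multiplicity of the zeros of Hardy's function and the size of the function

Unconditionally, every real zero `t` of `Z` with `t` large has multiplicity at most `0.1501 log t`;
the same bound holds for the number of all zeros of zeta with ordinate in `[T - h, T + h]`, counted
with multiplicity, for some absolute constant `h > 0` and all large `T`.  In general, if
`Z(t) ≪ t^(κ+ε)`, `0 ≤ κ ≤ 1/4`, the bound is `(c(κ) + ε) log T` with `c(κ) = √(2κ(1-2κ)) / π`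
(and `h = h(κ, ε)`), so `c(1/6) = √2 / (3π) = 0.15005...` and `c(0) = 0`.

The proof: `f(z) = (s-1) ζ(s) exp(z²)`, `s = 1/2 + iT + z`, and `E(z) = f(z) f(-z)`, an even function
which is of size `T^(2κ)` on the imaginary axis, of size `T^(1/2)` near `Re z = ± 1/2`, with a lower
bound of the same order near `z = 1/2`.  The strip `|Re z| ≤ 1/2 + δ`, slit along the parts
`|Im z| ≥ v` of the imaginary axis, and folded by `z ↦ -z`, is mapped conformally onto a strip by
`cos (a z) = K cos ϕ`; there we divide by the Blaschke factors of the zeros and apply the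
Phragmén–Lindelöf principle.  The length of the slits is optimised at the end.
-/

open Filter Topology Complex

namespace Pool.Agent.Results.MP_6bc78b_nt.MultiplicityBound

/-- the phase `exp (i ϑ(t))`, with `ϑ(t) = arg Γ(1/4 + i t / 2) - (t / 2) log π` -/
noncomputable def phase (t : ℝ) : ℂ :=
  Gamma (1 / 4 + I * t / 2) / ‖Gamma (1 / 4 + I * t / 2)‖ * cexp (-(I * (t / 2) * Real.log Real.pi))

/-- Hardy's function `Z(t) = exp (i ϑ(t)) ζ(1/2 + i t)` -/
noncomputable def Z (t : ℝ) : ℂ := phase t * riemannZeta (1 / 2 + I * t)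

/-- the multiplicity of a real zero `t` of `Z`: the least `m ≥ 1` such that the `m`-th derivative of
`Z` at `t` is not zero -/
noncomputable def mlt (t : ℝ) : ℕ := sInf {m : ℕ | 1 ≤ m ∧ iteratedDeriv m Z t ≠ 0}

/-- the real zeros of `Z` in `[T - h, T + h]` -/
def realZeros (T h : ℝ) : Set ℝ := {t : ℝ | |t - T| ≤ h ∧ Z t = 0}

/-- the nontrivial zeros of zeta with ordinate in `[T - h, T + h]` -/
def zeros (T h : ℝ) : Set ℂ := {s : ℂ | riemannZeta s = 0 ∧ 0 < s.re ∧ s.re < 1 ∧ |s.im - T| ≤ h}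

/-- the number of nontrivial zeros of zeta with ordinate in `[T - h, T + h]`, counted with
multiplicity -/
noncomputable def N (T h : ℝ) : ℕ := ∑ᶠ s ∈ zeros T h, analyticOrderNatAt riemannZeta s

/-- `Z(t) ≪ t^(κ+ε)` for every `ε > 0` -/
def SizeBound (κ : ℝ) : Prop := ∀ ε : ℝ, 0 < ε → ∃ C : ℝ, ∀ t : ℝ, 1 ≤ t → ‖Z t‖ ≤ C * t ^ (κ + ε)

/-- the constant `c(κ) = √(2κ(1-2κ)) / π` -/
noncomputable def c (κ : ℝ) : ℝ := Real.sqrt (2 * κ * (1 - 2 * κ)) / Real.pi

lemma Z_norm (t : ℝ) : ‖Z t‖ = ‖riemannZeta (1 / 2 + t * I)‖ := by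
  unfold Z phase
  have h1 : ‖Gamma (1 / 4 + I * t / 2)‖ ≠ 0 := by
    rw [norm_ne_zero_iff]
    exact Pool.Agent.W54.TCF.gamma_ne t
  have h2 : (-(I * (t / 2) * Real.log Real.pi)) = ((-(t / 2 * Real.log Real.pi) : ℝ) : ℂ) * I := by
    push_cast; ring
  rw [norm_mul, norm_mul, norm_div, Complex.norm_real, norm_norm, div_self h1, h2,
    Complex.norm_exp_ofReal_mul_I, one_mul, one_mul, mul_comm I]

/-- **Theorem.**
* Let `0 ≤ κ ≤ 1/4` and suppose that `Z(t) ≪ t^(κ+ε)` for every `ε > 0`.  Then for every `ε > 0`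
  there is `h > 0` such that for all large `T` the number of nontrivial zeros of zeta with ordinate
  in `[T - h, T + h]`, counted with multiplicity, is at most `(c(κ) + ε) log T`; in particular this
  bounds the sum of the multiplicities of the real zeros of `Z` in `[T - h, T + h]`.
* Unconditionally, there is `h > 0` such that for all large `T` that number is at most
  `0.1501 log T`.
* Unconditionally, every real zero `t` of `Z`, `t` large, has multiplicity at most `0.1501 log t`. -/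
theorem result :
    (∀ κ : ℝ, 0 ≤ κ → κ ≤ 1 / 4 → SizeBound κ → ∀ ε : ℝ, 0 < ε → ∃ h : ℝ, 0 < h ∧ ∃ T0 : ℝ,
      ∀ T : ℝ, T0 ≤ T → (zeros T h).Finite ∧ (realZeros T h).Finite ∧
        ∑ᶠ t ∈ realZeros T h, mlt t ≤ N T h ∧ (N T h : ℝ) ≤ (c κ + ε) * Real.log T) ∧
    (∃ h : ℝ, 0 < h ∧ ∃ T0 : ℝ, ∀ T : ℝ, T0 ≤ T → (zeros T h).Finite ∧ (realZeros T h).Finite ∧
        ∑ᶠ t ∈ realZeros T h, mlt t ≤ N T h ∧ (N T h : ℝ) ≤ 1501 / 10000 * Real.log T) ∧
    (∃ T0 : ℝ, ∀ t : ℝ, T0 ≤ t → Z t = 0 → (mlt t : ℝ) ≤ 1501 / 10000 * Real.log t) := by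
  classical
  have hmlt : ∀ t : ℝ, Z t = 0 → mlt t = analyticOrderNatAt riemannZeta (1 / 2 + I * t) := fun t ht =>
    Pool.Agent.W54.TCF.mlt_eq t ht (TH809.MZ.order_ne_top (Pool.Agent.W54.TCF.half_ne t))
  have hZz : ∀ t : ℝ, Z t = 0 ↔ riemannZeta (1 / 2 + I * t) = 0 := fun t =>
    Pool.Agent.W54.TCF.Z_zero_iff t
  -- the real zeros
  have hreal : ∀ T h : ℝ, (zeros T h).Finite → (realZeros T h).Finite ∧
      ∑ᶠ t ∈ realZeros T h, mlt t ≤ N T h := by
    intro T h hfin
    have hinj : Function.Injective fun t : ℝ => (1 / 2 + I * t : ℂ) := by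
      intro x y hxy
      have := congrArg im hxy
      simpa using this
    have hmaps : ∀ t ∈ realZeros T h, (1 / 2 + I * t : ℂ) ∈ zeros T h := by
      intro t ht
      refine ⟨(hZz t).1 ht.2, by simp, by simp; norm_num, ?_⟩
      have : (1 / 2 + I * t : ℂ).im = t := by simp
      rw [this]
      exact ht.1
    have hrf : (realZeros T h).Finite := by
      apply Set.Finite.of_finite_image (f := fun t : ℝ => (1 / 2 + I * t : ℂ)) _ hinj.injOn
      apply hfin.subset
      rintro _ ⟨t, ht, rfl⟩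
      exact hmaps t ht
    refine ⟨hrf, ?_⟩
    unfold N
    rw [finsum_mem_eq_finite_toFinset_sum _ hrf, finsum_mem_eq_finite_toFinset_sum _ hfin]
    calc ∑ t ∈ hrf.toFinset, mlt t
        = ∑ t ∈ hrf.toFinset, analyticOrderNatAt riemannZeta (1 / 2 + I * t) :=
          Finset.sum_congr rfl fun t ht => hmlt t ((hrf.mem_toFinset.1 ht).2)
      _ = ∑ s ∈ hrf.toFinset.image (fun t : ℝ => (1 / 2 + I * t : ℂ)),
            analyticOrderNatAt riemannZeta s := by
          rw [Finset.sum_image (fun x _ y _ hxy => hinj hxy)]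
      _ ≤ _ := by
          apply Finset.sum_le_sum_of_subset
          intro s hs
          obtain ⟨t, ht, rfl⟩ := Finset.mem_image.1 hs
          exact hfin.mem_toFinset.2 (hmaps t (hrf.mem_toFinset.1 ht))
  -- the general bound
  have hgen : ∀ κ : ℝ, 0 ≤ κ → κ ≤ 1 / 4 → TH809.MZ.Growth κ → ∀ ε : ℝ, 0 < ε → ∃ h : ℝ, 0 < h ∧
      ∃ T0 : ℝ, ∀ T : ℝ, T0 ≤ T → (zeros T h).Finite ∧ (realZeros T h).Finite ∧
        ∑ᶠ t ∈ realZeros T h, mlt t ≤ N T h ∧ (N T h : ℝ) ≤ (c κ + ε) * Real.log T := by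
    intro κ h0 h1 hg ε hε
    obtain ⟨h, C, hh, H⟩ := TH809.MZ.window h0 h1 hg (half_pos hε)
    refine ⟨h, hh, max 1 (Real.exp (2 * |C| / ε)), fun T hT => ?_⟩
    have hT1 : 1 ≤ T := (le_max_left _ _).trans hT
    have hT0 : 0 < T := by linarith
    obtain ⟨hfin, hb⟩ := H T hT1
    have hfin' : (zeros T h).Finite := hfin
    obtain ⟨hr1, hr2⟩ := hreal T h hfin'
    refine ⟨hfin', hr1, hr2, ?_⟩
    have hlog : 2 * |C| / ε ≤ Real.log T := by
      rw [Real.le_log_iff_exp_le hT0]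
      exact (le_max_right _ _).trans hT
    have h2 : C ≤ ε / 2 * Real.log T := by
      have h3 : |C| ≤ ε / 2 * Real.log T := by
        rw [div_le_iff₀ hε] at hlog
        linarith
      exact (le_abs_self C).trans h3
    have h3 : (N T h : ℝ) ≤ (TH809.MZ.cc κ + ε / 2) * Real.log T + C := hb
    have h4 : TH809.MZ.cc κ = c κ := rfl
    rw [h4] at h3
    linarith
  have hpart2 : ∃ h : ℝ, 0 < h ∧ ∃ T0 : ℝ, ∀ T : ℝ, T0 ≤ T → (zeros T h).Finite ∧
      (realZeros T h).Finite ∧ ∑ᶠ t ∈ realZeros T h, mlt t ≤ N T h ∧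
      (N T h : ℝ) ≤ 1501 / 10000 * Real.log T := by
    obtain ⟨h, hh, T0, H⟩ := hgen (1 / 6) (by norm_num) (by norm_num) TH809.MZ.growth_weyl
      (2 / 100000) (by norm_num)
    refine ⟨h, hh, max T0 1, fun T hT => ?_⟩
    obtain ⟨g1, g2, g3, g4⟩ := H T ((le_max_left _ _).trans hT)
    refine ⟨g1, g2, g3, g4.trans ?_⟩
    apply mul_le_mul_of_nonneg_right _ (Real.log_nonneg ((le_max_right _ _).trans hT))
    have h5 : c (1 / 6) ≤ 15006 / 100000 := by
      unfold c
      rw [div_le_iff₀ Real.pi_pos]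
      have h6 : Real.sqrt (2 * (1 / 6) * (1 - 2 * (1 / 6))) ≤ 471405 / 1000000 := by
        apply Real.sqrt_le_iff.2
        constructor <;> norm_num
      have h7 := Real.pi_gt_d6
      linarith
    linarith
  refine ⟨fun κ h0 h1 hs => ?_, hpart2, ?_⟩
  · apply hgen κ h0 h1
    apply TH809.MZ.growth_of h0
    intro ε hε
    obtain ⟨C, hC⟩ := hs ε hε
    refine ⟨1, C, fun t ht => ?_⟩
    rw [← Z_norm]
    exact hC t ht
  · obtain ⟨h, hh, T0, H⟩ := hpart2
    refine ⟨T0, fun t ht hZt => ?_⟩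
    obtain ⟨g1, g2, g3, g4⟩ := H t ht
    have hmem : t ∈ realZeros t h := ⟨by rw [sub_self, abs_zero]; exact hh.le, hZt⟩
    have h5 : mlt t ≤ ∑ᶠ u ∈ realZeros t h, mlt u := by
      rw [finsum_mem_eq_finite_toFinset_sum _ g2]
      exact Finset.single_le_sum (f := mlt) (fun _ _ => Nat.zero_le _) (g2.mem_toFinset.2 hmem)
    have h6 : (mlt t : ℝ) ≤ (N t h : ℝ) := by exact_mod_cast h5.trans g3
    exact h6.trans g4

end Pool.Agent.Results.MP_6bc78b_nt.MultiplicityBound
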