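import Pool.Agent.TH299.RunsZeta
import Pool.Agent.W354.ZP.Num

/-!
# Runs of consecutive simple zeros of Hardy's function

Unconditionally, in every short interval `(T, T + H]` with `T ^ h ≤ H ≤ T`, at least the proportion
`2 - c(h) - m (c(h) - 1) / 2 - ε` of the zeros starts a run of `m + 1` simple zeros of `Z` with no
other ordinate of a zero of zeta in between; here `c(1) ≤ 1.3275`, so that there are runs of up to
five zeros.  All but `m / A` of the runs have a total length of at most `A` mean gaps.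
-/

open Filter Topology Complex

namespace Pool.Agent.Results.MP_6bc78b_nt.RunsOfSimpleZeros

/-- the phase `exp (i ϑ(t))`, with `ϑ(t) = arg Γ(1/4 + i t / 2) - (t / 2) log π` -/
noncomputable def phase (t : ℝ) : ℂ :=
  Gamma (1 / 4 + I * t / 2) / ‖Gamma (1 / 4 + I * t / 2)‖ * cexp (-(I * (t / 2) * Real.log Real.pi))

/-- Hardy's function `Z(t) = exp (i ϑ(t)) ζ(1/2 + i t)` -/
noncomputable def Z (t : ℝ) : ℂ := phase t * riemannZeta (1 / 2 + I * t)

/-- the nontrivial zeros of zeta with ordinate in `(T₁, T₂]` -/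
def zeros (T₁ T₂ : ℝ) : Set ℂ :=
  {s : ℂ | riemannZeta s = 0 ∧ 0 < s.re ∧ s.re < 1 ∧ T₁ < s.im ∧ s.im ≤ T₂}

/-- the number of nontrivial zeros with ordinate in `(T₁, T₂]`, counted with multiplicity -/
noncomputable def N (T₁ T₂ : ℝ) : ℕ := ∑ᶠ s ∈ zeros T₁ T₂, analyticOrderNatAt riemannZeta s

/-- the constant `c(h) = h/2 + cot(h/√2)/√2` -/
noncomputable def c (h : ℝ) : ℝ := h / 2 + Real.cot (h / Real.sqrt 2) / Real.sqrt 2

/-- the points `t` which start a run of simple zeros `t = u 0 < u 1 < ... < u m` of `Z` in `(T₁, T₂]`,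
of total length at most `L`, such that no other number in `[u 0, u m]` is the ordinate of a
nontrivial zero of zeta -/
def runs (m : ℕ) (L T₁ T₂ : ℝ) : Set ℝ :=
  {t : ℝ | ∃ u : Fin (m + 1) → ℝ, StrictMono u ∧ u 0 = t ∧ T₁ < u 0 ∧ u (Fin.last m) ≤ T₂ ∧
    (∀ j, Z (u j) = 0 ∧ deriv Z (u j) ≠ 0) ∧
    (∀ s : ℂ, riemannZeta s = 0 → 0 < s.re → s.re < 1 → u 0 ≤ s.im → s.im ≤ u (Fin.last m) →
      ∃ j, s.im = u j) ∧ u (Fin.last m) - u 0 ≤ L}

/-- the points `t` which start such a run for which moreover the `1/2 + i u j` are the only nontrivial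
zeros of zeta, on or off the critical line, with ordinate in `[u 0, u m]` -/
def pureRuns (m : ℕ) (L T₁ T₂ : ℝ) : Set ℝ :=
  {t : ℝ | ∃ u : Fin (m + 1) → ℝ, StrictMono u ∧ u 0 = t ∧ T₁ < u 0 ∧ u (Fin.last m) ≤ T₂ ∧
    (∀ j, Z (u j) = 0 ∧ deriv Z (u j) ≠ 0) ∧
    (∀ s : ℂ, riemannZeta s = 0 → 0 < s.re → s.re < 1 → u 0 ≤ s.im → s.im ≤ u (Fin.last m) →
      ∃ j, s = 1 / 2 + I * u j) ∧ u (Fin.last m) - u 0 ≤ L}

lemma gamma_ne (t : ℝ) : Gamma (1 / 4 + I * t / 2) ≠ 0 := by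
  apply Gamma_ne_zero_of_re_pos
  simp

lemma gamma_cont : Continuous fun t : ℝ => Gamma (1 / 4 + I * t / 2) := by
  rw [continuous_iff_continuousAt]
  intro t
  have h1 : ContinuousAt Gamma (1 / 4 + I * t / 2) := by
    refine (differentiableAt_Gamma _ fun m hm => ?_).continuousAt
    have := congrArg Complex.re hm
    simp at this
    have hm0 : (0 : ℝ) ≤ m := Nat.cast_nonneg m
    linarith
  exact ContinuousAt.comp (f := fun t : ℝ => (1 / 4 + I * t / 2 : ℂ)) h1 (by fun_prop)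

lemma phase_cont : Continuous phase := by
  unfold phase
  refine Continuous.mul (gamma_cont.div ?_ ?_) (by fun_prop)
  · exact Complex.continuous_ofReal.comp gamma_cont.norm
  · intro t
    rw [Complex.ofReal_ne_zero]
    exact norm_ne_zero_iff.mpr (gamma_ne t)

lemma phase_ne (t : ℝ) : phase t ≠ 0 := by
  unfold phase
  refine mul_ne_zero (div_ne_zero (gamma_ne t) ?_) (Complex.exp_ne_zero _)
  rw [Complex.ofReal_ne_zero]
  exact norm_ne_zero_iff.mpr (gamma_ne t)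

lemma Z_zero_iff (t : ℝ) : Z t = 0 ↔ riemannZeta (1 / 2 + I * t) = 0 := by
  unfold Z
  rw [mul_eq_zero]
  exact ⟨fun h => h.resolve_left (phase_ne t), Or.inr⟩

lemma zeta_diff (t : ℝ) : DifferentiableAt ℂ riemannZeta (1 / 2 + I * t) := by
  refine differentiableAt_riemannZeta fun h => ?_
  have := congrArg Complex.re h
  norm_num at this

lemma Z_hasDerivAt (t : ℝ) (h : riemannZeta (1 / 2 + I * t) = 0) :
    HasDerivAt Z (phase t * (deriv riemannZeta (1 / 2 + I * t) * I)) t := by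
  have hg : HasDerivAt (fun u : ℝ => riemannZeta (1 / 2 + I * u))
      (deriv riemannZeta (1 / 2 + I * t) * I) t := by
    have h1 : HasDerivAt (fun u : ℝ => (1 / 2 + I * u : ℂ)) I t := by
      have h2 : HasDerivAt (fun u : ℝ => (u : ℂ)) 1 t := Complex.ofRealCLM.hasDerivAt
      simpa using (h2.const_mul I).const_add (1 / 2 : ℂ)
    exact HasDerivAt.comp (h₂ := riemannZeta) t (zeta_diff t).hasDerivAt h1
  rw [hasDerivAt_iff_tendsto_slope] at hg ⊢
  have h3 : Tendsto phase (𝓝[≠] t) (𝓝 (phase t)) :=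
    phase_cont.continuousAt.tendsto.mono_left nhdsWithin_le_nhds
  refine (h3.mul hg).congr fun u => ?_
  have hZ : Z t = 0 := (Z_zero_iff t).mpr h
  rw [slope_def_module, slope_def_module, hZ, h, sub_zero, sub_zero]
  unfold Z
  simp only [Complex.real_smul]
  ring

lemma zeta_analytic {s : ℂ} (hs : s ≠ 1) : AnalyticAt ℂ riemannZeta s := by
  have : DifferentiableOn ℂ riemannZeta ({1}ᶜ : Set ℂ) := fun z hz =>
    (differentiableAt_riemannZeta hz).differentiableWithinAt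
  exact this.analyticAt (isOpen_compl_singleton.mem_nhds hs)

/-- a zero of `Z` is simple if the corresponding zero of zeta is simple -/
lemma simple_of_order {t : ℝ} (h : riemannZeta (1 / 2 + I * t) = 0)
    (h1 : analyticOrderNatAt riemannZeta (1 / 2 + I * t) = 1) : deriv Z t ≠ 0 := by
  rw [(Z_hasDerivAt t h).deriv]
  refine mul_ne_zero (phase_ne t) (mul_ne_zero ?_ I_ne_zero)
  have hs : (1 / 2 + I * t : ℂ) ≠ 1 := by
    intro h
    have := congrArg Complex.re h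
    norm_num at this
  have ha := zeta_analytic hs
  have h2 : analyticOrderAt riemannZeta (1 / 2 + I * t) = 1 := by
    unfold analyticOrderNatAt at h1
    have h3 : analyticOrderAt riemannZeta (1 / 2 + I * t) ≠ ⊤ := by
      intro h4; rw [h4] at h1; simp at h1
    rw [← ENat.natCast_toNat h3, h1]; rfl
  have h3 := ha.analyticOrderAt_deriv_add_one
  simp only [h, sub_zero] at h3
  rw [h2] at h3
  have h4 : analyticOrderAt (deriv riemannZeta) (1 / 2 + I * t) = 0 := by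
    revert h3
    generalize analyticOrderAt (deriv riemannZeta) (1 / 2 + I * t) = x
    intro h3
    cases x with
    | top => simp at h3
    | coe n =>
      have h6 : n + 1 = 1 := by exact_mod_cast h3
      have h7 : n = 0 := by omega
      rw [h7]; rfl
  exact ha.deriv.analyticOrderAt_eq_zero.mp h4

lemma zeros_eq (T₁ T₂ : ℝ) : zeros T₁ T₂ = H370.zset riemannZeta T₁ T₂ := by
  ext s
  simp only [zeros, H370.zset, Set.mem_ofPred_eq]
  tauto

/-- the sets of nontrivial zeros that are counted are finite -/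
theorem zeros_finite (T₁ T₂ : ℝ) (h : 0 < T₁) : (zeros T₁ T₂).Finite := by
  rw [zeros_eq]
  exact H370.zset_finite' H370.good_zeta T₁ T₂ h

lemma N_eq (T₁ T₂ : ℝ) : N T₁ T₂ = H370.NN riemannZeta T₁ T₂ := by
  unfold N H370.NN H370.mult
  rw [zeros_eq]

/-- the zeros of `Z` in a bounded interval are finite in number -/
theorem Z_zeros_finite (T : ℝ) : {t : ℝ | 0 < t ∧ t ≤ T ∧ Z t = 0}.Finite := by
  have hinj : Function.Injective fun t : ℝ => (1 / 2 + I * t : ℂ) := by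
    intro a b hab
    have := congrArg Complex.im hab
    simpa using this
  refine Set.Finite.of_finite_image ((H370.zeta_zeros_finite T).subset ?_) hinj.injOn
  rintro s ⟨t, ⟨h1, h2, h3⟩, rfl⟩
  refine ⟨?_, ?_, ?_, ?_, (Z_zero_iff t).mp h3⟩ <;> simp <;> first | assumption | norm_num

/-- the sets `runs` are finite -/
theorem runs_finite (m : ℕ) (L T₁ T₂ : ℝ) (h : 0 ≤ T₁) : (runs m L T₁ T₂).Finite := by
  refine (Z_zeros_finite T₂).subset ?_
  rintro t ⟨u, h1, h2, h3, h4, h5, -, -⟩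
  have h8 : u 0 ≤ u (Fin.last m) := h1.monotone (Fin.zero_le _)
  rw [← h2]
  exact ⟨by linarith, by linarith, (h5 0).1⟩

/-- the sets `pureRuns` are finite -/
theorem pureRuns_finite (m : ℕ) (L T₁ T₂ : ℝ) (h : 0 ≤ T₁) : (pureRuns m L T₁ T₂).Finite := by
  refine (Z_zeros_finite T₂).subset ?_
  rintro t ⟨u, h1, h2, h3, h4, h5, -, -⟩
  have h8 : u 0 ≤ u (Fin.last m) := h1.monotone (Fin.zero_le _)
  rw [← h2]
  exact ⟨by linarith, by linarith, (h5 0).1⟩

lemma simple_aux {t : ℝ} (h : riemannZeta (1 / 2 + I * t) = 0 ∧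
    H370.mult riemannZeta (1 / 2 + I * t) = 1) : Z t = 0 ∧ deriv Z t ≠ 0 :=
  ⟨(Z_zero_iff t).mpr h.1, simple_of_order h.1 h.2⟩

lemma runs_le {m : ℕ} {L a T₁ T₂ : ℝ} (h : 0 ≤ T₁) (ha : T₁ ≤ a) :
    ({t : ℝ | Pool.Agent.TH299.RunsL.RunA riemannZeta m L a T₂ t}.ncard : ℝ) ≤
      ((runs m L T₁ T₂).ncard : ℝ) := by
  have : {t : ℝ | Pool.Agent.TH299.RunsL.RunA riemannZeta m L a T₂ t}.ncard ≤
      (runs m L T₁ T₂).ncard := by
    refine Set.ncard_le_ncard ?_ (runs_finite m L T₁ T₂ h)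
    rintro t ⟨u, h1, h2, h3, h4, h5, h6, h7⟩
    exact ⟨u, h1, h2, lt_of_le_of_lt ha h3, h4, fun j => simple_aux (h5 j), h6, h7⟩
  exact_mod_cast this

lemma pureRuns_le {m : ℕ} {L a T₁ T₂ : ℝ} (h : 0 ≤ T₁) (ha : T₁ ≤ a) :
    ({t : ℝ | Pool.Agent.TH299.RunsL.RunB riemannZeta m L a T₂ t}.ncard : ℝ) ≤
      ((pureRuns m L T₁ T₂).ncard : ℝ) := by
  have : {t : ℝ | Pool.Agent.TH299.RunsL.RunB riemannZeta m L a T₂ t}.ncard ≤
      (pureRuns m L T₁ T₂).ncard := by
    refine Set.ncard_le_ncard ?_ (pureRuns_finite m L T₁ T₂ h)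
    rintro t ⟨u, h1, h2, h3, h4, h5, h6, h7⟩
    exact ⟨u, h1, h2, lt_of_le_of_lt ha h3, h4, fun j => simple_aux (h5 j), h6, h7⟩
  exact_mod_cast this

theorem result :
    (∀ (m : ℕ) (h ε : ℝ), 0 < h → h ≤ 1 → 0 < ε → ∃ T₀ : ℝ, ∀ T : ℝ, T₀ ≤ T →
      ∀ H : ℝ, T ^ h ≤ H → H ≤ T → ∀ A : ℝ, 0 < A →
      (2 - c h - m * ((c h - 1) / 2) - m / A - ε) * (N T (T + H) : ℝ) ≤
        ((runs m (A * H / N T (T + H)) T (T + H)).ncard : ℝ) ∧
      (2 - c h - (m + 1) * ((c h - 1) / 2) - m / A - ε) * (N T (T + H) : ℝ) ≤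
        ((pureRuns m (A * H / N T (T + H)) T (T + H)).ncard : ℝ)) ∧
    (∀ h : ℝ, 0 < h → h ≤ 1 → c h ≤ 1 / h + h / 3) ∧ c 1 ≤ 1.3275 := by
  refine ⟨fun m h ε h0 h1 hε => ?_, H295SI.cc_le, ?_⟩
  · obtain ⟨T0, hT1, hT0⟩ := Pool.Agent.TH299.RunsL.runs_short H370.good_zeta h0 h1 m hε
    refine ⟨T0, fun T hT H hH1 hH2 A hA => ?_⟩
    obtain ⟨a1, a2⟩ := hT0 T hT H hH1 hH2 A hA
    rw [← N_eq] at a1 a2
    exact ⟨a1.trans (runs_le (by linarith) le_rfl), a2.trans (pureRuns_le (by linarith) le_rfl)⟩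
  · have h := Pool.Agent.W354.ZP.cMTinv_sharp
    unfold H370.cMTinv at h
    unfold c
    exact h

end Pool.Agent.Results.MP_6bc78b_nt.RunsOfSimpleZeros
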