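import Pool.Agent.TH803.TW.Split
import Pool.Agent.TH803.TW.Torus
import Pool.Agent.W354.ZP.Num
import Pool.Agent.H295R2.SI.Fin

/-!
# Simple zeros of Hardy's function in Bohr sets (under RH)

Assume the Riemann hypothesis. Fix `0 < h ≤ 1`. For every almost periodic weight `φ ≥ 0` with mean
value `M`, in all intervals `(T, T + H]` with `T ^ h ≤ H ≤ T` the sum of `φ` over the simple zeros
of `Z` is at least `((2 - c(h)) M - o(1)) N(T, T + H)`; over all distinct zeros it is at least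
`((3 - c(h)) M / 2 - o(1)) N(T, T + H)`, and the sum of `m² φ` (`m` the multiplicity) is at most
`(c(h) M + o(1)) N(T, T + H)`. In particular every Bohr set (and, more generally, every open set
of a torus along a line) gets at least `(2 - c(h))` times its fair share of simple zeros, and
`2 - c(1) ≥ 0.6725`.
-/

open Filter Topology Complex MeasureTheory

namespace Pool.Agent.Results.MP_6bc78b_nt.SimpleZerosBohrSets

/-- the phase `exp (i ϑ(t))`, with `ϑ(t) = arg Γ(1/4 + i t / 2) - (t / 2) log π` -/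
noncomputable def phase (t : ℝ) : ℂ :=
  Gamma (1 / 4 + I * t / 2) / ‖Gamma (1 / 4 + I * t / 2)‖ * cexp (-(I * (t / 2) * Real.log Real.pi))

/-- Hardy's function `Z(t) = exp (i ϑ(t)) ζ(1/2 + i t)` -/
noncomputable def Z (t : ℝ) : ℂ := phase t * riemannZeta (1 / 2 + I * t)

/-- the simple real zeros of `Z` in `(T₁, T₂]` -/
def simpleZeros (T₁ T₂ : ℝ) : Set ℝ := {t : ℝ | T₁ < t ∧ t ≤ T₂ ∧ Z t = 0 ∧ deriv Z t ≠ 0}

/-- the nontrivial zeros of zeta with ordinate in `(T₁, T₂]` -/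
def zeros (T₁ T₂ : ℝ) : Set ℂ :=
  {s : ℂ | riemannZeta s = 0 ∧ 0 < s.re ∧ s.re < 1 ∧ T₁ < s.im ∧ s.im ≤ T₂}

/-- the number of nontrivial zeros with ordinate in `(T₁, T₂]`, counted with multiplicity -/
noncomputable def N (T₁ T₂ : ℝ) : ℕ := ∑ᶠ s ∈ zeros T₁ T₂, analyticOrderNatAt riemannZeta s

/-- the constant `c(h) = h/2 + cot(h/√2)/√2`; `c(1) = c_MT⁻¹` -/
noncomputable def c (h : ℝ) : ℝ := h / 2 + Real.cot (h / Real.sqrt 2) / Real.sqrt 2

/-- the distinct real zeros of `Z` in `(T₁, T₂]` -/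
def realZeros (T₁ T₂ : ℝ) : Set ℝ := {t : ℝ | T₁ < t ∧ t ≤ T₂ ∧ Z t = 0}

/-- the multiplicity of the zero `1/2 + it` of zeta, equal to the multiplicity of the zero `t`
of `Z` -/
noncomputable def mult (t : ℝ) : ℕ := analyticOrderNatAt riemannZeta (1 / 2 + I * t)

/-- `φ` is (uniformly) almost periodic: it is a uniform limit of trigonometric polynomials
`Re ∑ c_τ exp (i τ t)`, `τ` in a finite set of real numbers -/
def AlmostPeriodic (φ : ℝ → ℝ) : Prop := ∀ ε : ℝ, 0 < ε → ∃ (S : Finset ℝ) (c : ℝ → ℂ),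
  ∀ t : ℝ, |φ t - (∑ τ ∈ S, c τ * cexp (I * τ * t)).re| ≤ ε

/-- `φ` has mean value `M` -/
def HasMean (φ : ℝ → ℝ) (M : ℝ) : Prop :=
  Tendsto (fun X : ℝ => (∫ t in (0 : ℝ)..X, φ t) / X) atTop (𝓝 M)

/-- the point `α t mod 1` of the torus `(ℝ/ℤ)^k` -/
def pt {k : ℕ} (α : Fin k → ℝ) (t : ℝ) : UnitAddTorus (Fin k) :=
  fun j => ((α j * t : ℝ) : UnitAddCircle)

/-- the normalised Haar measure of the torus -/
noncomputable def haar (k : ℕ) : Measure (UnitAddTorus (Fin k)) :=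
  Measure.pi fun _ => AddCircle.haarAddCircle

/-- distance to the nearest integer -/
noncomputable def distInt (x : ℝ) : ℝ := |x - round x|

lemma gamma_ne (t : ℝ) : Gamma (1 / 4 + I * t / 2) ≠ 0 := by
  apply Gamma_ne_zero_of_re_pos
  simp

lemma gamma_cont : Continuous fun t : ℝ => Gamma (1 / 4 + I * t / 2) := by
  rw [continuous_iff_continuousAt]
  intro t
  have h1 : ContinuousAt Gamma (1 / 4 + I * t / 2) := by
    refine (differentiableAt_Gamma _ fun m hm => ?_).continuousAt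
    have := congrArg Complex.re hm
    simp at this
    have hm0 : (0 : ℝ) ≤ m := Nat.cast_nonneg m
    linarith
  exact ContinuousAt.comp (f := fun t : ℝ => (1 / 4 + I * t / 2 : ℂ)) h1 (by fun_prop)

lemma phase_cont : Continuous phase := by
  unfold phase
  refine Continuous.mul (gamma_cont.div ?_ ?_) (by fun_prop)
  · exact Complex.continuous_ofReal.comp gamma_cont.norm
  · intro t
    rw [Complex.ofReal_ne_zero]
    exact norm_ne_zero_iff.mpr (gamma_ne t)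

lemma phase_ne (t : ℝ) : phase t ≠ 0 := by
  unfold phase
  refine mul_ne_zero (div_ne_zero (gamma_ne t) ?_) (Complex.exp_ne_zero _)
  rw [Complex.ofReal_ne_zero]
  exact norm_ne_zero_iff.mpr (gamma_ne t)

lemma Z_zero_iff (t : ℝ) : Z t = 0 ↔ riemannZeta (1 / 2 + I * t) = 0 := by
  unfold Z
  rw [mul_eq_zero]
  exact ⟨fun h => h.resolve_left (phase_ne t), Or.inr⟩

lemma zeta_diff (t : ℝ) : DifferentiableAt ℂ riemannZeta (1 / 2 + I * t) := by
  refine differentiableAt_riemannZeta fun h => ?_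
  have := congrArg Complex.re h
  norm_num at this

lemma Z_hasDerivAt (t : ℝ) (h : riemannZeta (1 / 2 + I * t) = 0) :
    HasDerivAt Z (phase t * (deriv riemannZeta (1 / 2 + I * t) * I)) t := by
  have hg : HasDerivAt (fun u : ℝ => riemannZeta (1 / 2 + I * u))
      (deriv riemannZeta (1 / 2 + I * t) * I) t := by
    have h1 : HasDerivAt (fun u : ℝ => (1 / 2 + I * u : ℂ)) I t := by
      have h2 : HasDerivAt (fun u : ℝ => (u : ℂ)) 1 t := Complex.ofRealCLM.hasDerivAt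
      simpa using (h2.const_mul I).const_add (1 / 2 : ℂ)
    exact HasDerivAt.comp (h₂ := riemannZeta) t (zeta_diff t).hasDerivAt h1
  rw [hasDerivAt_iff_tendsto_slope] at hg ⊢
  have h3 : Tendsto phase (𝓝[≠] t) (𝓝 (phase t)) :=
    phase_cont.continuousAt.tendsto.mono_left nhdsWithin_le_nhds
  refine (h3.mul hg).congr fun u => ?_
  have hZ : Z t = 0 := (Z_zero_iff t).mpr h
  rw [slope_def_module, slope_def_module, hZ, h, sub_zero, sub_zero]
  unfold Z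
  simp only [Complex.real_smul]
  ring

lemma zeta_analytic {s : ℂ} (hs : s ≠ 1) : AnalyticAt ℂ riemannZeta s := by
  have : DifferentiableOn ℂ riemannZeta ({1}ᶜ : Set ℂ) := fun z hz =>
    (differentiableAt_riemannZeta hz).differentiableWithinAt
  exact this.analyticAt (isOpen_compl_singleton.mem_nhds hs)

/-- a zero of `Z` is simple if the corresponding zero of zeta is simple -/
lemma simple_of_order {t : ℝ} (h : riemannZeta (1 / 2 + I * t) = 0)
    (h1 : analyticOrderNatAt riemannZeta (1 / 2 + I * t) = 1) : deriv Z t ≠ 0 := by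
  rw [(Z_hasDerivAt t h).deriv]
  refine mul_ne_zero (phase_ne t) (mul_ne_zero ?_ I_ne_zero)
  have hs : (1 / 2 + I * t : ℂ) ≠ 1 := by
    intro h
    have := congrArg Complex.re h
    norm_num at this
  have ha := zeta_analytic hs
  have h2 : analyticOrderAt riemannZeta (1 / 2 + I * t) = 1 := by
    unfold analyticOrderNatAt at h1
    have h3 : analyticOrderAt riemannZeta (1 / 2 + I * t) ≠ ⊤ := by
      intro h4; rw [h4] at h1; simp at h1
    rw [← ENat.natCast_toNat h3, h1]; rfl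
  have h3 := ha.analyticOrderAt_deriv_add_one
  simp only [h, sub_zero] at h3
  rw [h2] at h3
  have h4 : analyticOrderAt (deriv riemannZeta) (1 / 2 + I * t) = 0 := by
    revert h3
    generalize analyticOrderAt (deriv riemannZeta) (1 / 2 + I * t) = x
    intro h3
    cases x with
    | top => simp at h3
    | coe n =>
      have h6 : n + 1 = 1 := by exact_mod_cast h3
      have h7 : n = 0 := by omega
      rw [h7]; rfl
  exact ha.deriv.analyticOrderAt_eq_zero.mp h4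

lemma zeros_eq (T₁ T₂ : ℝ) : zeros T₁ T₂ = H370.zset riemannZeta T₁ T₂ := by
  ext s
  simp only [zeros, H370.zset, Set.mem_ofPred_eq]
  tauto

/-- the sets of nontrivial zeros that are counted are finite -/
theorem zeros_finite (T₁ T₂ : ℝ) (h : 0 < T₁) : (zeros T₁ T₂).Finite := by
  rw [zeros_eq]
  exact H370.zset_finite' H370.good_zeta T₁ T₂ h

lemma N_eq (T₁ T₂ : ℝ) : N T₁ T₂ = H370.NN riemannZeta T₁ T₂ := by
  unfold N H370.NN H370.mult
  rw [zeros_eq]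

/-- the sets of simple zeros of `Z` that are counted are finite -/
theorem simpleZeros_finite (T₁ T₂ : ℝ) (h : 0 < T₁) : (simpleZeros T₁ T₂).Finite := by
  have hinj : Function.Injective fun t : ℝ => (1 / 2 + I * t : ℂ) := by
    intro a b hab
    have := congrArg Complex.im hab
    simpa using this
  refine Set.Finite.of_finite_image ((zeros_finite T₁ T₂ h).subset ?_) hinj.injOn
  rintro s ⟨t, ⟨h1, h2, h3, h4⟩, rfl⟩
  refine ⟨(Z_zero_iff t).mp h3, ?_, ?_, ?_, ?_⟩ <;> simp <;> first | assumption | norm_num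

lemma line_zeta (RH : RiemannHypothesis) : TH803TW.Line riemannZeta := by
  intro s h1 h2 h3 h4
  refine RH s h4 ?_ ?_
  · rintro ⟨n, rfl⟩
    simp at h1
    have : (0 : ℝ) ≤ n := Nat.cast_nonneg n
    linarith
  · rintro rfl
    norm_num at h3

lemma im_image (RH : RiemannHypothesis) {T₁ T₂ : ℝ} (h : 1 ≤ T₁) :
    (fun s : ℂ => s.im) '' (H370.zset riemannZeta T₁ T₂) = realZeros T₁ T₂ := by
  ext t
  constructor
  · rintro ⟨s, ⟨h1, h2, h3, h4, h5⟩, rfl⟩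
    refine ⟨h3, h4, ?_⟩
    rw [Z_zero_iff]
    have h6 := line_zeta RH s h1 h2 (by linarith) h5
    have hs : (1 / 2 + I * s.im : ℂ) = s := by
      apply Complex.ext
      · simp [h6]
      · simp
    rw [hs]; exact h5
  · rintro ⟨h1, h2, h3⟩
    refine ⟨1 / 2 + I * t, ⟨?_, ?_, ?_, ?_, (Z_zero_iff t).mp h3⟩, ?_⟩ <;> simp <;>
      first | assumption | norm_num

lemma im_inj (RH : RiemannHypothesis) {T₁ T₂ : ℝ} (h : 1 ≤ T₁) :
    Set.InjOn (fun s : ℂ => s.im) (H370.zset riemannZeta T₁ T₂) := by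
  rintro s ⟨h1, h2, h3, h4, h5⟩ s' ⟨h1', h2', h3', h4', h5'⟩ h6
  have e1 := line_zeta RH s h1 h2 (by linarith) h5
  have e2 := line_zeta RH s' h1' h2' (by linarith) h5'
  exact Complex.ext (e1.trans e2.symm) h6

lemma sum_real (RH : RiemannHypothesis) {T₁ T₂ : ℝ} (h : 1 ≤ T₁) (f : ℝ → ℝ) :
    ∑ᶠ t ∈ realZeros T₁ T₂, f t = ∑ s ∈ H370.Zf riemannZeta T₁ T₂, f s.im := by
  rw [← im_image RH h, finsum_mem_image (im_inj RH h), H370.finsum_Zf H370.good_zeta h]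

lemma point_eq (RH : RiemannHypothesis) {T₁ T₂ : ℝ} (h : 1 ≤ T₁) {s : ℂ}
    (hs : s ∈ H370.zset riemannZeta T₁ T₂) : (1 / 2 + I * s.im : ℂ) = s := by
  obtain ⟨h1, h2, h3, h4, h5⟩ := hs
  have h6 := line_zeta RH s h1 h2 (by linarith) h5
  apply Complex.ext
  · simp [h6]
  · simp

lemma Sd_eq (RH : RiemannHypothesis) {T₁ T₂ : ℝ} (h : 1 ≤ T₁) (φ : ℝ → ℝ) :
    ∑ᶠ t ∈ realZeros T₁ T₂, φ t = TH803TW.Sd riemannZeta T₁ T₂ φ := sum_real RH h φ

lemma SqW_eq (RH : RiemannHypothesis) {T₁ T₂ : ℝ} (h : 1 ≤ T₁) (φ : ℝ → ℝ) :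
    ∑ᶠ t ∈ realZeros T₁ T₂, (mult t : ℝ) ^ 2 * φ t = TH803TW.SqW riemannZeta T₁ T₂ φ := by
  rw [sum_real RH h fun t => (mult t : ℝ) ^ 2 * φ t]
  unfold TH803TW.SqW
  refine Finset.sum_congr rfl fun s hs => ?_
  rw [H370.mem_Zf H370.good_zeta h] at hs
  unfold mult H370.mult
  rw [point_eq RH h hs]

lemma S1_le (RH : RiemannHypothesis) {T₁ T₂ : ℝ} (h : 1 ≤ T₁) {φ : ℝ → ℝ} (hφ : ∀ t, 0 ≤ φ t) :
    TH803TW.S1 riemannZeta T₁ T₂ φ ≤ ∑ᶠ t ∈ simpleZeros T₁ T₂, φ t := by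
  classical
  have hfin := simpleZeros_finite T₁ T₂ (by linarith)
  rw [finsum_mem_eq_finite_toFinset_sum _ hfin]
  unfold TH803TW.S1
  rw [← Finset.sum_image (f := φ) (g := fun s : ℂ => s.im)
    (s := (H370.Zf riemannZeta T₁ T₂).filter fun s => H370.mult riemannZeta s = 1)]
  · refine Finset.sum_le_sum_of_subset_of_nonneg ?_ fun t _ _ => hφ t
    intro t ht
    rw [Finset.mem_image] at ht
    obtain ⟨s, hs, rfl⟩ := ht
    rw [Finset.mem_filter, H370.mem_Zf H370.good_zeta h] at hs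
    rw [Set.Finite.mem_toFinset]
    have e := point_eq RH h hs.1
    refine ⟨hs.1.2.2.1, hs.1.2.2.2.1, ?_, ?_⟩
    · rw [Z_zero_iff, e]; exact hs.1.2.2.2.2
    · apply simple_of_order
      · rw [e]; exact hs.1.2.2.2.2
      · rw [e]; exact hs.2
  · intro s hs s' hs' h'
    rw [Finset.mem_coe, Finset.mem_filter, H370.mem_Zf H370.good_zeta h] at hs hs'
    exact im_inj RH h hs.1 hs'.1 h'

theorem weights (RH : RiemannHypothesis) {φ : ℝ → ℝ} {M : ℝ} (hφ : TH803TW.APm φ M)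
    (hφ0 : ∀ t, 0 ≤ φ t) (hM : 0 ≤ M) {h ε : ℝ} (h0 : 0 < h) (h1 : h ≤ 1) (hε : 0 < ε) :
    ∃ T₀ : ℝ, ∀ T : ℝ, T₀ ≤ T → ∀ H : ℝ, T ^ h ≤ H → H ≤ T →
      ((2 - c h) * M - ε) * (N T (T + H) : ℝ) ≤ ∑ᶠ t ∈ simpleZeros T (T + H), φ t ∧
      ((3 - c h) / 2 * M - ε) * (N T (T + H) : ℝ) ≤ ∑ᶠ t ∈ realZeros T (T + H), φ t ∧
      ∑ᶠ t ∈ realZeros T (T + H), (mult t : ℝ) ^ 2 * φ t ≤
        (c h * M + ε) * (N T (T + H) : ℝ) := by
  obtain ⟨T0, hT0, hT⟩ := TH803TW.simpleW H370.good_zeta (line_zeta RH) hφ hφ0 hM h ε h0 h1 hε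
  refine ⟨T0, fun T hT1 H hH1 hH2 => ?_⟩
  obtain ⟨a1, a2, a3⟩ := hT T hT1 H hH1 hH2
  have h2 : 1 ≤ T := by linarith
  rw [N_eq, Sd_eq RH h2, SqW_eq RH h2]
  exact ⟨a1.trans (S1_le RH h2 hφ0), a2, a3⟩

lemma mean_nonneg {φ : ℝ → ℝ} {M : ℝ} (h0 : ∀ t, 0 ≤ φ t) (h : HasMean φ M) : 0 ≤ M := by
  refine ge_of_tendsto h ?_
  filter_upwards [eventually_gt_atTop (0 : ℝ)] with X hX
  exact div_nonneg (intervalIntegral.integral_nonneg hX.le fun t _ => h0 t) hX.le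

lemma count_ge {k : ℕ} {α : Fin k → ℝ} {U : Set (UnitAddTorus (Fin k))} {A : Set ℝ}
    (hA : A.Finite) {f : C(UnitAddTorus (Fin k), ℝ)} (hf1 : ∀ x, f x ≤ 1)
    (hfU : ∀ x, x ∉ U → f x = 0) :
    ∑ᶠ t ∈ A, f (pt α t) ≤ ({t ∈ A | pt α t ∈ U}.ncard : ℝ) := by
  classical
  rw [finsum_mem_eq_finite_toFinset_sum _ hA]
  have h1 : {t ∈ A | pt α t ∈ U} = ((hA.toFinset.filter fun t => pt α t ∈ U : Finset ℝ) : Set ℝ) := by
    ext t
    simp
  rw [h1, Set.ncard_coe_finset, Finset.card_filter, Nat.cast_sum]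
  refine Finset.sum_le_sum fun t _ => ?_
  split_ifs with h
  · simpa using hf1 _
  · rw [hfU _ h]; simp

lemma realZeros_finite (RH : RiemannHypothesis) {T₁ T₂ : ℝ} (h : 1 ≤ T₁) :
    (realZeros T₁ T₂).Finite := by
  rw [← im_image RH h]
  exact (H370.zset_finite H370.good_zeta T₁ T₂ h).image _

lemma arith {c M M' ε N x : ℝ} (hx : 0 ≤ x) (hN : 0 ≤ N) (hM : 0 ≤ M) (hε : 0 < ε)
    (h1 : 0 ≤ c → (c * M' - ε / 2) * N ≤ x) (h2 : M - ε / (2 * (|c| + 1)) ≤ M') :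
    (c * M - ε) * N ≤ x := by
  rcases le_or_gt 0 c with h | h
  · refine le_trans ?_ (h1 h)
    apply mul_le_mul_of_nonneg_right _ hN
    have h3 : c * M - c * (ε / (2 * (|c| + 1))) ≤ c * M' := by
      have := mul_le_mul_of_nonneg_left h2 h
      linarith
    have h4 : c * (ε / (2 * (|c| + 1))) ≤ ε / 2 := by
      rw [abs_of_nonneg h]
      have : c * (ε / (2 * (c + 1))) = (c / (c + 1)) * (ε / 2) := by field_simp
      rw [this]
      have h5 : c / (c + 1) ≤ 1 := by rw [div_le_one (by linarith)]; linarith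
      calc (c / (c + 1)) * (ε / 2) ≤ 1 * (ε / 2) := by gcongr
        _ = _ := one_mul _
    linarith
  · refine le_trans ?_ hx
    apply mul_nonpos_of_nonpos_of_nonneg _ hN
    have := mul_nonpos_of_nonpos_of_nonneg h.le hM
    linarith

theorem opens (RH : RiemannHypothesis) {k : ℕ} {α : Fin k → ℝ}
    (hα : ∀ n : Fin k → ℤ, ∑ j, (n j : ℝ) * α j = 0 → n = 0) {U : Set (UnitAddTorus (Fin k))}
    (hU : IsOpen U) {h ε : ℝ} (h0 : 0 < h) (h1 : h ≤ 1) (hε : 0 < ε) :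
    ∃ T₀ : ℝ, ∀ T : ℝ, T₀ ≤ T → ∀ H : ℝ, T ^ h ≤ H → H ≤ T →
      ((2 - c h) * (haar k U).toReal - ε) * (N T (T + H) : ℝ) ≤
        ({t ∈ simpleZeros T (T + H) | pt α t ∈ U}.ncard : ℝ) ∧
      ((3 - c h) / 2 * (haar k U).toReal - ε) * (N T (T + H) : ℝ) ≤
        ({t ∈ realZeros T (T + H) | pt α t ∈ U}.ncard : ℝ) := by
  set K : ℝ := max |2 - c h| |(3 - c h) / 2| with hK
  have hK0 : 0 ≤ K := (abs_nonneg _).trans (le_max_left _ _)
  obtain ⟨f, hf0, hf1, hfU, hfM⟩ := TH803TW.torus_lower hU (ε := ε / (2 * (K + 1))) (by positivity)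
  have hAPm := TH803TW.APm_torus hα f
  obtain ⟨T₀, hT₀⟩ := weights RH hAPm (fun t => hf0 _) (integral_nonneg hf0) h0 h1
    (ε := ε / 2) (by positivity)
  refine ⟨max T₀ 1, fun T hT H hH1 hH2 => ?_⟩
  have hT1 : 1 ≤ T := (le_max_right _ _).trans hT
  obtain ⟨a1, a2, -⟩ := hT₀ T ((le_max_left _ _).trans hT) H hH1 hH2
  have hM0 : 0 ≤ (haar k U).toReal := ENNReal.toReal_nonneg
  have hN0 : (0 : ℝ) ≤ N T (T + H) := Nat.cast_nonneg _
  have c1 := count_ge (α := α) (simpleZeros_finite T (T + H) (by linarith)) hf1 hfU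
  have c2 := count_ge (α := α) (realZeros_finite RH (T₂ := T + H) hT1) hf1 hfU
  constructor
  · refine arith (Nat.cast_nonneg _) hN0 hM0 hε (fun _ => a1.trans c1) ?_
    refine le_trans ?_ hfM
    have : ε / (2 * (K + 1)) ≤ ε / (2 * (|2 - c h| + 1)) := by
      gcongr
      exact le_max_left _ _
    show (haar k U).toReal - _ ≤ (haar k U).toReal - _
    linarith
  · refine arith (Nat.cast_nonneg _) hN0 hM0 hε (fun _ => a2.trans c2) ?_
    refine le_trans ?_ hfM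
    have : ε / (2 * (K + 1)) ≤ ε / (2 * (|(3 - c h) / 2| + 1)) := by
      gcongr
      exact le_max_right _ _
    show (haar k U).toReal - _ ≤ (haar k U).toReal - _
    linarith

lemma pt_box {k : ℕ} (α β δ : Fin k → ℝ) (t : ℝ) :
    pt α t ∈ (Set.univ.pi fun j => Metric.ball ((β j : ℝ) : UnitAddCircle) (δ j)) ↔
      ∀ j, distInt (α j * t - β j) < δ j := by
  unfold pt distInt
  simp only [Set.mem_univ_pi, Metric.mem_ball, dist_eq_norm]
  refine forall_congr' fun j => ?_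
  rw [← UnitAddCircle.norm_eq (x := α j * t - β j)]
  rfl

theorem boxes (RH : RiemannHypothesis) {k : ℕ} {α : Fin k → ℝ}
    (hα : ∀ n : Fin k → ℤ, ∑ j, (n j : ℝ) * α j = 0 → n = 0) (β δ : Fin k → ℝ)
    (hδ : ∀ j, 0 < δ j ∧ δ j ≤ 1 / 2) {h ε : ℝ} (h0 : 0 < h) (h1 : h ≤ 1) (hε : 0 < ε) :
    ∃ T₀ : ℝ, ∀ T : ℝ, T₀ ≤ T → ∀ H : ℝ, T ^ h ≤ H → H ≤ T →
      ((2 - c h) * ∏ j, (2 * δ j) - ε) * (N T (T + H) : ℝ) ≤
        ({t ∈ simpleZeros T (T + H) | ∀ j, distInt (α j * t - β j) < δ j}.ncard : ℝ) ∧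
      ((3 - c h) / 2 * ∏ j, (2 * δ j) - ε) * (N T (T + H) : ℝ) ≤
        ({t ∈ realZeros T (T + H) | ∀ j, distInt (α j * t - β j) < δ j}.ncard : ℝ) := by
  obtain ⟨T₀, hT₀⟩ := opens RH hα (TH803TW.box_open (fun j => ((β j : ℝ) : UnitAddCircle)) δ)
    h0 h1 hε
  have hv := TH803TW.box_vol (fun j => ((β j : ℝ) : UnitAddCircle)) (fun j => (hδ j).1)
    (fun j => (hδ j).2)
  have hv' : ∏ j, (2 * δ j) ≤ (haar k (Set.univ.pi fun j =>
    Metric.ball ((β j : ℝ) : UnitAddCircle) (δ j))).toReal := hv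
  refine ⟨T₀, fun T hT H hH1 hH2 => ?_⟩
  obtain ⟨a1, a2⟩ := hT₀ T hT H hH1 hH2
  simp only [pt_box] at a1 a2
  have hN0 : (0 : ℝ) ≤ N T (T + H) := Nat.cast_nonneg _
  have hP0 : 0 ≤ ∏ j, (2 * δ j) := Finset.prod_nonneg fun j _ => by
    have := (hδ j).1
    positivity
  have key : ∀ c x : ℝ, 0 ≤ x → (c * (haar k (Set.univ.pi fun j =>
      Metric.ball ((β j : ℝ) : UnitAddCircle) (δ j))).toReal - ε) * (N T (T + H) : ℝ) ≤ x →
      (c * ∏ j, (2 * δ j) - ε) * (N T (T + H) : ℝ) ≤ x := by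
    intro c x hx hc
    rcases le_or_gt 0 c with h | h
    · refine le_trans ?_ hc
      gcongr
    · refine le_trans ?_ hx
      apply mul_nonpos_of_nonpos_of_nonneg _ hN0
      have := mul_nonpos_of_nonpos_of_nonneg h.le hP0
      linarith
  exact ⟨key _ _ (Nat.cast_nonneg _) a1, key _ _ (Nat.cast_nonneg _) a2⟩

/-- **simple zeros in Bohr sets, assuming RH** -/
theorem result (RH : RiemannHypothesis) :
    -- almost periodic weights
    (∀ (φ : ℝ → ℝ) (M : ℝ), AlmostPeriodic φ → (∀ t, 0 ≤ φ t) → HasMean φ M →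
      ∀ h ε : ℝ, 0 < h → h ≤ 1 → 0 < ε →
      ∃ T₀ : ℝ, ∀ T : ℝ, T₀ ≤ T → ∀ H : ℝ, T ^ h ≤ H → H ≤ T →
        ((2 - c h) * M - ε) * (N T (T + H) : ℝ) ≤ ∑ᶠ t ∈ simpleZeros T (T + H), φ t ∧
        ((3 - c h) / 2 * M - ε) * (N T (T + H) : ℝ) ≤ ∑ᶠ t ∈ realZeros T (T + H), φ t ∧
        ∑ᶠ t ∈ realZeros T (T + H), (mult t : ℝ) ^ 2 * φ t ≤
          (c h * M + ε) * (N T (T + H) : ℝ)) ∧
    -- open sets of tori
    (∀ (k : ℕ) (α : Fin k → ℝ), (∀ n : Fin k → ℤ, ∑ j, (n j : ℝ) * α j = 0 → n = 0) →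
      ∀ U : Set (UnitAddTorus (Fin k)), IsOpen U → ∀ h ε : ℝ, 0 < h → h ≤ 1 → 0 < ε →
      ∃ T₀ : ℝ, ∀ T : ℝ, T₀ ≤ T → ∀ H : ℝ, T ^ h ≤ H → H ≤ T →
        ((2 - c h) * (haar k U).toReal - ε) * (N T (T + H) : ℝ) ≤
          ({t ∈ simpleZeros T (T + H) | pt α t ∈ U}.ncard : ℝ) ∧
        ((3 - c h) / 2 * (haar k U).toReal - ε) * (N T (T + H) : ℝ) ≤
          ({t ∈ realZeros T (T + H) | pt α t ∈ U}.ncard : ℝ)) ∧
    -- Bohr sets
    (∀ (k : ℕ) (α : Fin k → ℝ), (∀ n : Fin k → ℤ, ∑ j, (n j : ℝ) * α j = 0 → n = 0) →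
      ∀ β δ : Fin k → ℝ, (∀ j, 0 < δ j ∧ δ j ≤ 1 / 2) → ∀ h ε : ℝ, 0 < h → h ≤ 1 → 0 < ε →
      ∃ T₀ : ℝ, ∀ T : ℝ, T₀ ≤ T → ∀ H : ℝ, T ^ h ≤ H → H ≤ T →
        ((2 - c h) * ∏ j, (2 * δ j) - ε) * (N T (T + H) : ℝ) ≤
          ({t ∈ simpleZeros T (T + H) | ∀ j, distInt (α j * t - β j) < δ j}.ncard : ℝ) ∧
        ((3 - c h) / 2 * ∏ j, (2 * δ j) - ε) * (N T (T + H) : ℝ) ≤
          ({t ∈ realZeros T (T + H) | ∀ j, distInt (α j * t - β j) < δ j}.ncard : ℝ)) ∧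
    -- the constant
    (∀ h : ℝ, 0 < h → h ≤ 1 → c h ≤ 1 / h + h / 3) ∧ c 1 ≤ 1.3275 := by
  refine ⟨fun φ M hφ hφ0 hM h ε h0 h1 hε => ?_, fun k α hα U hU h ε h0 h1 hε => ?_,
    fun k α hα β δ hδ h ε h0 h1 hε => ?_, H295SI.cc_le, ?_⟩
  · exact weights RH (TH803TW.APm_of_mean hφ hM) hφ0 (mean_nonneg hφ0 hM) h0 h1 hε
  · exact opens RH hα hU h0 h1 hε
  · exact boxes RH hα β δ hδ h0 h1 hε
  · have h := Pool.Agent.W354.ZP.cMTinv_sharp
    unfold H370.cMTinv at h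
    unfold c
    exact h

end Pool.Agent.Results.MP_6bc78b_nt.SimpleZerosBohrSets
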